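import Pool.Agent.Helper18.PS.St

set_option autoImplicit false

namespace Pool.Agent.Helper56.PS

open Finset
open Nat (totient)
open Pool.Agent.Helper18.PS
open Pool.Agent.Helper30.LQ (StSMT)
open Pool.Agent.Helper94.DN (StRAN)

private lemma card_mult (N d : ℕ) :
    (((Icc 1 N).filter (fun n => d ∣ n)).card : ℝ) ≤ (N : ℝ) / d := by
  have h : ((Icc 1 N).filter (fun n => d ∣ n)).card = N / d := by
    have := Nat.Ioc_filter_dvd_card_eq_div N d
    rw [← this]
    congr 1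
  rw [h]
  exact Nat.cast_div_le

private lemma sum_inv (N : ℕ) : ∑ i ∈ Icc 1 N, (1 : ℝ) / i ≤ 1 + Real.log N := by
  have h := harmonic_le_one_add_log N
  have e : ((harmonic N : ℚ) : ℝ) = ∑ i ∈ Icc 1 N, (1 : ℝ) / i := by
    rw [harmonic_eq_sum_Icc]
    push_cast
    apply sum_congr rfl
    intro i _
    rw [one_div]
  rw [← e]
  exact h

private lemma sum_inv_sq {z : ℕ} (hz : 1 ≤ z) (M : ℕ) :
    ∑ r ∈ Ioc z M, (1 : ℝ) / (r : ℝ) ^ 2 ≤ 1 / z := by
  have hz' : (0 : ℝ) < z := by exact_mod_cast hz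
  rcases le_total z M with h | h
  · have h1 := sum_Ioc_inv_sq_le_sub (α := ℝ) (k := z) (n := M) (by omega) h
    have h2 : ∑ r ∈ Ioc z M, (1 : ℝ) / (r : ℝ) ^ 2 = ∑ r ∈ Ioc z M, ((r : ℝ) ^ 2)⁻¹ :=
      sum_congr rfl (fun r _ => by rw [one_div])
    have h3 : (0 : ℝ) ≤ (M : ℝ)⁻¹ := by positivity
    rw [h2, one_div]
    linarith
  · rw [Ioc_eq_empty_of_le h, sum_empty]
    positivity

theorem hC4 : StC4 := by
  intro z N hz hN
  classical
  have hz' : (0 : ℝ) < z := by exact_mod_cast hz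
  have hN' : (1 : ℝ) ≤ N := by exact_mod_cast hN
  set H : ℝ := ∑ i ∈ Icc 1 N, (1 : ℝ) / i with hH
  set S : ℝ := ∑ r ∈ Ioc z (N + 1), (1 : ℝ) / (r : ℝ) ^ 2 with hS
  have hH0 : 0 ≤ H := sum_nonneg (fun i _ => by positivity)
  have hS0 : 0 ≤ S := sum_nonneg (fun i _ => by positivity)
  have hlog : 0 ≤ Real.log N := Real.log_nonneg hN'
  have hH1 : H ≤ 1 + Real.log N := sum_inv N
  have hS1 : S ≤ 1 / z := sum_inv_sq hz (N + 1)
  -- the covering
  have hcov : ∀ n ∈ Icc 1 N, ((∃ p q r : ℕ, p.Prime ∧ q.Prime ∧ r.Prime ∧ z < r ∧ r ∣ p + 1 ∧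
      r ∣ q - 1 ∧ p * q ∣ n) ∨
      ∃ p r : ℕ, p.Prime ∧ r.Prime ∧ z < r ∧ r ∣ p + 1 ∧ p * r ^ 2 ∣ n) →
      n ∈ (((Icc 1 N ×ˢ (Icc 1 N ×ˢ Ioc z (N + 1))).biUnion
        (fun t => (Icc 1 N).filter (fun n => (t.2.1 * t.2.2 - 1) * (t.1 * t.2.2 + 1) ∣ n))) ∪
        ((Icc 1 N ×ˢ Ioc z (N + 1)).biUnion
          (fun t => (Icc 1 N).filter (fun n => (t.1 * t.2 - 1) * t.2 ^ 2 ∣ n)))) := by
    intro n hn h
    rw [mem_Icc] at hn
    rw [mem_union]
    rcases h with ⟨p, q, r, hp, hq, hr, hzr, hrp, hrq, hd⟩ | ⟨p, r, hp, hr, hzr, hrp, hd⟩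
    · left
      obtain ⟨j, hj⟩ := hrp
      obtain ⟨i, hi⟩ := hrq
      have hp2 := hp.two_le
      have hq2 := hq.two_le
      have hr2 := hr.two_le
      have hle : p * q ≤ n := Nat.le_of_dvd (by omega) hd
      have hj0 : 1 ≤ j := by
        rcases Nat.eq_zero_or_pos j with h | h
        · rw [h] at hj; omega
        · exact h
      have hi0 : 1 ≤ i := by
        rcases Nat.eq_zero_or_pos i with h | h
        · rw [h] at hi; omega
        · exact h
      have hpn : p ≤ N := by nlinarith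
      have hqn : q ≤ N := by nlinarith
      have hjN : j ≤ N := by nlinarith
      have hiN : i ≤ N := by
        have : i ≤ r * i := Nat.le_mul_of_pos_left i (by omega)
        omega
      have hrN : r ≤ N + 1 := by
        have : r ≤ r * j := Nat.le_mul_of_pos_right r (by omega)
        omega
      rw [mem_biUnion]
      refine ⟨(i, (j, r)), ?_, ?_⟩
      · simp only [mem_product, mem_Icc, mem_Ioc]
        exact ⟨⟨hi0, hiN⟩, ⟨hj0, hjN⟩, hzr, hrN⟩
      · simp only [mem_filter, mem_Icc]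
        refine ⟨hn, ?_⟩
        have e1 : j * r - 1 = p := by rw [mul_comm j r, ← hj]; omega
        have e2 : i * r + 1 = q := by rw [mul_comm i r, ← hi]; omega
        rw [e1, e2]
        exact hd
    · right
      obtain ⟨j, hj⟩ := hrp
      have hp2 := hp.two_le
      have hr2 := hr.two_le
      have hle : p * r ^ 2 ≤ n := Nat.le_of_dvd (by omega) hd
      have hj0 : 1 ≤ j := by
        rcases Nat.eq_zero_or_pos j with h | h
        · rw [h] at hj; omega
        · exact h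
      have hpr : p ≤ p * r ^ 2 := Nat.le_mul_of_pos_right p (by positivity)
      have hpn : p ≤ N := by omega
      have hjN : j ≤ N := by nlinarith
      have hrN : r ≤ N + 1 := by
        have : r ≤ r * j := Nat.le_mul_of_pos_right r (by omega)
        omega
      rw [mem_biUnion]
      refine ⟨(j, r), ?_, ?_⟩
      · simp only [mem_product, mem_Icc, mem_Ioc]
        exact ⟨⟨hj0, hjN⟩, hzr, hrN⟩
      · simp only [mem_filter, mem_Icc]
        refine ⟨hn, ?_⟩
        have e1 : j * r - 1 = p := by rw [mul_comm j r, ← hj]; omega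
        rw [e1]
        exact hd
  have h1 : (((Icc 1 N).filter (fun n => (∃ p q r : ℕ, p.Prime ∧ q.Prime ∧ r.Prime ∧ z < r ∧
      r ∣ p + 1 ∧ r ∣ q - 1 ∧ p * q ∣ n) ∨
      ∃ p r : ℕ, p.Prime ∧ r.Prime ∧ z < r ∧ r ∣ p + 1 ∧ p * r ^ 2 ∣ n)).card : ℝ) ≤
      ((((Icc 1 N ×ˢ (Icc 1 N ×ˢ Ioc z (N + 1))).biUnion
        (fun t => (Icc 1 N).filter (fun n => (t.2.1 * t.2.2 - 1) * (t.1 * t.2.2 + 1) ∣ n))) ∪
        ((Icc 1 N ×ˢ Ioc z (N + 1)).biUnion
          (fun t => (Icc 1 N).filter (fun n => (t.1 * t.2 - 1) * t.2 ^ 2 ∣ n)))).card : ℝ) := by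
    exact_mod_cast card_le_card (fun n hn => hcov n (mem_filter.mp hn).1 (mem_filter.mp hn).2)
  have hjr : ∀ j r : ℕ, 1 ≤ j → z < r → (1 : ℝ) / ((j * r - 1 : ℕ) : ℝ) ≤ 2 * (1 / j * (1 / r)) := by
    intro j r hj hr
    have h2 : 2 ≤ j * r := by nlinarith
    have hc : (((j * r - 1 : ℕ)) : ℝ) = (j : ℝ) * r - 1 := by
      rw [Nat.cast_sub (by omega)]
      push_cast
      ring
    have h2' : (2 : ℝ) ≤ (j : ℝ) * r := by exact_mod_cast h2
    have hj' : (0 : ℝ) < j := by exact_mod_cast hj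
    have hr' : (0 : ℝ) < r := by
      have : 0 < r := by omega
      exact_mod_cast this
    rw [hc]
    have e : 2 * (1 / (j : ℝ) * (1 / r)) = 2 / ((j : ℝ) * r) := by
      field_simp
    rw [e, div_le_div_iff₀ (by linarith) (by linarith)]
    linarith
  have hA : ((((Icc 1 N ×ˢ (Icc 1 N ×ˢ Ioc z (N + 1))).biUnion
        (fun t => (Icc 1 N).filter (fun n => (t.2.1 * t.2.2 - 1) * (t.1 * t.2.2 + 1) ∣ n))).card : ℕ)
          : ℝ) ≤ 2 * N * (H * (H * S)) := by
    calc ((((Icc 1 N ×ˢ (Icc 1 N ×ˢ Ioc z (N + 1))).biUnion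
        (fun t => (Icc 1 N).filter (fun n => (t.2.1 * t.2.2 - 1) * (t.1 * t.2.2 + 1) ∣ n))).card : ℕ)
          : ℝ)
        ≤ ∑ t ∈ Icc 1 N ×ˢ (Icc 1 N ×ˢ Ioc z (N + 1)),
          (((Icc 1 N).filter (fun n => (t.2.1 * t.2.2 - 1) * (t.1 * t.2.2 + 1) ∣ n)).card : ℝ) := by
          exact_mod_cast card_biUnion_le
      _ ≤ ∑ t ∈ Icc 1 N ×ˢ (Icc 1 N ×ˢ Ioc z (N + 1)),
          2 * N * ((1 / (t.1 : ℝ)) * ((1 / (t.2.1 : ℝ)) * (1 / (t.2.2 : ℝ) ^ 2))) := by
          apply sum_le_sum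
          rintro ⟨i, j, r⟩ ht
          simp only [mem_product, mem_Icc, mem_Ioc] at ht
          obtain ⟨⟨hi0, -⟩, ⟨hj0, -⟩, hzr, -⟩ := ht
          refine (card_mult _ _).trans ?_
          have hi' : (0 : ℝ) < i := by exact_mod_cast hi0
          have hj' : (0 : ℝ) < j := by exact_mod_cast hj0
          have hr' : (0 : ℝ) < r := by
            have : 0 < r := by omega
            exact_mod_cast this
          have k1 := hjr j r hj0 hzr
          have k2 : (1 : ℝ) / ((i * r + 1 : ℕ) : ℝ) ≤ 1 / i * (1 / r) := by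
            have e : (1 : ℝ) / i * (1 / r) = 1 / ((i : ℝ) * r) := by field_simp
            rw [e]
            apply one_div_le_one_div_of_le (by positivity)
            push_cast
            linarith
          have k3 : (0 : ℝ) ≤ 1 / ((j * r - 1 : ℕ) : ℝ) := by positivity
          have k4 : (0 : ℝ) ≤ 1 / ((i * r + 1 : ℕ) : ℝ) := by positivity
          have e1 : (N : ℝ) / (((j * r - 1) * (i * r + 1) : ℕ) : ℝ)
              = N * ((1 / ((j * r - 1 : ℕ) : ℝ)) * (1 / ((i * r + 1 : ℕ) : ℝ))) := by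
            rw [Nat.cast_mul, one_div_mul_one_div, mul_one_div]
          have e2 : 2 * (N : ℝ) * ((1 / (i : ℝ)) * ((1 / (j : ℝ)) * (1 / (r : ℝ) ^ 2)))
              = N * ((2 * (1 / (j : ℝ) * (1 / r))) * (1 / i * (1 / r))) := by
            field_simp
          show (N : ℝ) / (((j * r - 1) * (i * r + 1) : ℕ) : ℝ)
            ≤ 2 * (N : ℝ) * ((1 / (i : ℝ)) * ((1 / (j : ℝ)) * (1 / (r : ℝ) ^ 2)))
          rw [e1, e2]
          apply mul_le_mul_of_nonneg_left _ (by positivity)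
          exact mul_le_mul k1 k2 k4 (by positivity)
      _ = 2 * N * (H * (H * S)) := by
          rw [← mul_sum, sum_product]
          congr 1
          rw [hH, hS, sum_mul]
          apply sum_congr rfl
          intro i _
          dsimp only
          rw [← mul_sum]
          congr 1
          rw [sum_product, sum_mul]
          apply sum_congr rfl
          intro j _
          dsimp only
          rw [← mul_sum]
  have hB : ((((Icc 1 N ×ˢ Ioc z (N + 1)).biUnion
          (fun t => (Icc 1 N).filter (fun n => (t.1 * t.2 - 1) * t.2 ^ 2 ∣ n))).card : ℕ) : ℝ)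
          ≤ 2 * N * (H * S) := by
    calc ((((Icc 1 N ×ˢ Ioc z (N + 1)).biUnion
          (fun t => (Icc 1 N).filter (fun n => (t.1 * t.2 - 1) * t.2 ^ 2 ∣ n))).card : ℕ) : ℝ)
        ≤ ∑ t ∈ Icc 1 N ×ˢ Ioc z (N + 1),
          (((Icc 1 N).filter (fun n => (t.1 * t.2 - 1) * t.2 ^ 2 ∣ n)).card : ℝ) := by
          exact_mod_cast card_biUnion_le
      _ ≤ ∑ t ∈ Icc 1 N ×ˢ Ioc z (N + 1),
          2 * N * ((1 / (t.1 : ℝ)) * (1 / (t.2 : ℝ) ^ 2)) := by
          apply sum_le_sum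
          rintro ⟨j, r⟩ ht
          simp only [mem_product, mem_Icc, mem_Ioc] at ht
          obtain ⟨⟨hj0, -⟩, hzr, -⟩ := ht
          refine (card_mult _ _).trans ?_
          have hj' : (0 : ℝ) < j := by exact_mod_cast hj0
          have hr1 : (1 : ℝ) ≤ r := by
            have : 1 ≤ r := by omega
            exact_mod_cast this
          have hr' : (0 : ℝ) < r := by linarith
          have k1 := hjr j r hj0 hzr
          have k3 : (0 : ℝ) ≤ 1 / ((j * r - 1 : ℕ) : ℝ) := by positivity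
          have e1 : (N : ℝ) / (((j * r - 1) * r ^ 2 : ℕ) : ℝ)
              = N * ((1 / ((j * r - 1 : ℕ) : ℝ)) * (1 / (r : ℝ) ^ 2)) := by
            rw [Nat.cast_mul, one_div_mul_one_div, mul_one_div, Nat.cast_pow]
          show (N : ℝ) / (((j * r - 1) * r ^ 2 : ℕ) : ℝ)
            ≤ 2 * (N : ℝ) * ((1 / (j : ℝ)) * (1 / (r : ℝ) ^ 2))
          have k5 : (1 : ℝ) / r ≤ 1 := by
            rw [div_le_one hr']
            exact hr1
          have k6 : (1 : ℝ) / ((j * r - 1 : ℕ) : ℝ) ≤ 2 * (1 / j) := by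
            have : 2 * ((1 : ℝ) / j * (1 / r)) ≤ 2 * (1 / j) := by
              have : (1 : ℝ) / j * (1 / r) ≤ 1 / j * 1 :=
                mul_le_mul_of_nonneg_left k5 (by positivity)
              linarith
            linarith
          rw [e1]
          calc (N : ℝ) * ((1 / ((j * r - 1 : ℕ) : ℝ)) * (1 / (r : ℝ) ^ 2))
              ≤ N * ((2 * (1 / j)) * (1 / (r : ℝ) ^ 2)) := by
                apply mul_le_mul_of_nonneg_left _ (by positivity)
                exact mul_le_mul_of_nonneg_right k6 (by positivity)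
            _ = _ := by ring
      _ = 2 * N * (H * S) := by
          rw [← mul_sum, sum_product]
          congr 1
          rw [hH, hS, sum_mul]
          apply sum_congr rfl
          intro i _
          dsimp only
          rw [← mul_sum]
  have hU : ((((Icc 1 N ×ˢ (Icc 1 N ×ˢ Ioc z (N + 1))).biUnion
        (fun t => (Icc 1 N).filter (fun n => (t.2.1 * t.2.2 - 1) * (t.1 * t.2.2 + 1) ∣ n))) ∪
        ((Icc 1 N ×ˢ Ioc z (N + 1)).biUnion
          (fun t => (Icc 1 N).filter (fun n => (t.1 * t.2 - 1) * t.2 ^ 2 ∣ n)))).card : ℝ)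
      ≤ 2 * N * (H * (H * S)) + 2 * N * (H * S) := by
    refine le_trans ?_ (add_le_add hA hB)
    exact_mod_cast card_union_le _ _
  set L : ℝ := 1 + Real.log N with hL
  have hL1 : 1 ≤ L := by rw [hL]; linarith
  have b1 : H * S ≤ L * (1 / z) := mul_le_mul hH1 hS1 hS0 (by linarith)
  have b2 : H * (H * S) ≤ L * (L * (1 / z)) := mul_le_mul hH1 b1 (by positivity) (by linarith)
  have b3 : L * (1 / (z : ℝ)) ≤ L * (L * (1 / z)) := by
    have : 0 ≤ L * (1 / (z : ℝ)) := by positivity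
    nlinarith
  have hfin : 2 * (N : ℝ) * (H * (H * S)) + 2 * N * (H * S) ≤ 4 * N * L ^ 2 / z := by
    have c1 : 2 * (N : ℝ) * (H * (H * S)) ≤ 2 * N * (L * (L * (1 / z))) :=
      mul_le_mul_of_nonneg_left b2 (by positivity)
    have c2 : 2 * (N : ℝ) * (H * S) ≤ 2 * N * (L * (L * (1 / z))) :=
      mul_le_mul_of_nonneg_left (b1.trans b3) (by positivity)
    have e : 4 * (N : ℝ) * L ^ 2 / z = 2 * N * (L * (L * (1 / z))) + 2 * N * (L * (L * (1 / z))) := by
      field_simp
      ring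
    rw [e]
    linarith
  exact h1.trans (hU.trans hfin)

end Pool.Agent.Helper56.PS
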